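import Pool.Agent.H71.FX.Targets3

/-!
# Relational sentences as sentences with function symbols
-/

set_option autoImplicit false

namespace Pool.Agent.H67.FX

open Pool.Agent.H71.FX Pool.Agent.H71.PF Pool.Agent.H8.PL

theorem pf_RX (tx : T_TX) : T_RX := by
  intro φ
  obtain ⟨ψ, h1, h2, h3⟩ := tx φ (fun i => .var i)
  refine ⟨ψ, fun k hk => h1 k k hk (fun i hi => hi), fun F hb => h2 F (fun _ => trivial) hb, ?_⟩
  have hpre : ∀ {α : Type} (f : ℕ → List α → α) (R : ℕ → List α → Prop) (π : List Bool) (k : ℕ)
      (v : ℕ → α), Pre f R ψ π k v ↔ Pool.Agent.H71.PX.Pre R φ π k v := by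
    intro α f R π
    induction π with
    | nil =>
      intro k v
      exact h3 α f R v
    | cons b π ih =>
      intro k v
      cases b with
      | true => exact forall_congr' fun a => ih (k + 1) (Function.update v k a)
      | false => exact exists_congr fun a => ih (k + 1) (Function.update v k a)
  intro π
  ext n
  constructor
  · rintro ⟨hn, f, R, h⟩
    exact ⟨hn, R, fun v => (hpre f R π 0 v).1 (h v)⟩
  · rintro ⟨hn, R, h⟩
    exact ⟨hn, fun _ _ => ⟨0, hn⟩, R, fun v => (hpre _ R π 0 v).2 (h v)⟩

end Pool.Agent.H67.FX
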