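import Pool.Agent.H71.FX.Targets

/-! Row TR of `fxm_modules`: the transposed structure. -/

set_option autoImplicit false

namespace Pool.Agent.H67.FX

open Pool.Agent.H71.FX

theorem pf_TR : T_TR := by
  intro α Q m h x
  obtain ⟨⟨a, b, c, d, e⟩, g2, g3⟩ := h x
  exact ⟨⟨c, d, a, b, fun h1 h2 => (e h2 h1).symm⟩, g3, g2⟩

end Pool.Agent.H67.FX
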